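import Mathlib

set_option autoImplicit false

/-!
Few characters separate a finite set of elements of an abelian group from zero.
-/

namespace Pool.Agent.R109.Chars

open Finset

/-- the group `ℚ / ℤ` -/
abbrev QZ : Type := AddCircle (1 : ℚ)

section

variable {G : Type*} [AddCommGroup G]

theorem exists_char (d : G) : ∃ c : G →+ QZ, d ≠ 0 → c d ≠ 0 := by
  by_cases h : d = 0
  · exact ⟨0, fun h' => absurd h h'⟩
  · obtain ⟨c, hc⟩ := CharacterModule.exists_character_apply_ne_zero_of_ne_zero (A := G) h
    exact ⟨c, fun _ => hc⟩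

/-- some character is nonzero at half of the elements of a finite set of nonzero elements -/
theorem half (D : Finset G) (hD : ∀ d ∈ D, d ≠ 0) :
    ∃ χ : G →+ QZ, 2 * (D.filter fun d => χ d = 0).card ≤ D.card := by
  classical
  choose c hc using fun d : G => exists_char d
  by_contra h
  push Not at h
  have hD0 : 0 < D.powerset.card := by
    rw [card_powerset]; positivity
  let X : Finset G → (G →+ QZ) := fun s => ∑ d ∈ s, c d
  have h1 : ∑ s ∈ D.powerset, D.card < ∑ s ∈ D.powerset, 2 * (D.filter fun d => X s d = 0).card :=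
    Finset.sum_lt_sum_of_nonempty (Finset.card_pos.1 hD0) fun s _ => h (X s)
  have h2 : ∑ s ∈ D.powerset, (D.filter fun d => X s d = 0).card =
      ∑ d ∈ D, (D.powerset.filter fun s => X s d = 0).card :=
    Finset.sum_card_bipartiteAbove_eq_sum_card_bipartiteBelow (fun s d => X s d = 0)
  have h3 : ∀ d ∈ D, 2 * (D.powerset.filter fun s => X s d = 0).card ≤ D.powerset.card := by
    intro d hd
    let t : Finset G → Finset G := fun s => if d ∈ s then s.erase d else insert d s
    have htt : ∀ s, t (t s) = s := by
      intro s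
      by_cases hs : d ∈ s
      · simp only [t, if_pos hs, Finset.mem_erase, ne_eq, not_true_eq_false, false_and, if_false]
        exact Finset.insert_erase hs
      · simp only [t, if_neg hs, Finset.mem_insert, true_or, if_true]
        exact Finset.erase_insert hs
    have htp : ∀ s ∈ D.powerset, t s ∈ D.powerset := by
      intro s hs
      rw [Finset.mem_powerset] at hs ⊢
      by_cases h' : d ∈ s
      · simp only [t, if_pos h']
        exact (Finset.erase_subset _ _).trans hs
      · simp only [t, if_neg h']
        exact Finset.insert_subset hd hs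
    have hX : ∀ s, X s d = 0 → X (t s) d ≠ 0 := by
      intro s hs hs'
      apply hc d (hD d hd)
      by_cases h' : d ∈ s
      · simp only [t, if_pos h'] at hs'
        have e : X s = c d + X (s.erase d) := (Finset.add_sum_erase s c h').symm
        rw [e, AddMonoidHom.add_apply, hs', add_zero] at hs
        exact hs
      · simp only [t, if_neg h'] at hs'
        have e : X (insert d s) = c d + X s := Finset.sum_insert h'
        rw [e, AddMonoidHom.add_apply, hs, add_zero] at hs'
        exact hs'
    have hcard : ((D.powerset.filter fun s => X s d = 0).image t).card =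
        (D.powerset.filter fun s => X s d = 0).card :=
      Finset.card_image_of_injective _ (Function.Involutive.injective htt)
    have hdisj : Disjoint (D.powerset.filter fun s => X s d = 0)
        ((D.powerset.filter fun s => X s d = 0).image t) := by
      rw [Finset.disjoint_left]
      intro s hs hs'
      obtain ⟨u, hu, rfl⟩ := Finset.mem_image.1 hs'
      exact hX u (Finset.mem_filter.1 hu).2 (Finset.mem_filter.1 hs).2
    have hsub : (D.powerset.filter fun s => X s d = 0) ∪
        ((D.powerset.filter fun s => X s d = 0).image t) ⊆ D.powerset := by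
      apply Finset.union_subset (Finset.filter_subset _ _)
      intro s hs
      obtain ⟨u, hu, rfl⟩ := Finset.mem_image.1 hs
      exact htp u (Finset.mem_filter.1 hu).1
    have := Finset.card_le_card hsub
    rw [Finset.card_union_of_disjoint hdisj, hcard] at this
    omega
  have h4 : ∑ d ∈ D, 2 * (D.powerset.filter fun s => X s d = 0).card ≤
      ∑ d ∈ D, D.powerset.card := Finset.sum_le_sum h3
  rw [← Finset.mul_sum, ← h2, Finset.mul_sum] at h4
  rw [Finset.sum_const, smul_eq_mul] at h1 h4
  rw [mul_comm D.card] at h4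
  omega

/-- `k` characters separate fewer than `2 ^ k` nonzero elements from zero -/
theorem separate (k : ℕ) : ∀ D : Finset G, (∀ d ∈ D, d ≠ 0) → D.card < 2 ^ k →
    ∃ χ : Fin k → (G →+ QZ), ∀ d ∈ D, ∃ i, χ i d ≠ 0 := by
  classical
  induction k with
  | zero =>
    intro D _ hc
    have : D = ∅ := by
      rw [← Finset.card_eq_zero]; simpa using hc
    subst this
    exact ⟨fun i => 0, fun d hd => absurd hd (Finset.notMem_empty d)⟩
  | succ k ih =>
    intro D hD hc
    obtain ⟨χ0, h0⟩ := half D hD
    obtain ⟨χ, hχ⟩ := ih (D.filter fun d => χ0 d = 0)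
      (fun d hd => hD d (Finset.mem_filter.1 hd).1) (by rw [pow_succ] at hc; omega)
    refine ⟨Fin.cons χ0 χ, ?_⟩
    intro d hd
    by_cases h : χ0 d = 0
    · obtain ⟨i, hi⟩ := hχ d (Finset.mem_filter.2 ⟨hd, h⟩)
      exact ⟨i.succ, by simpa using hi⟩
    · exact ⟨0, by simpa using h⟩

end

/-- every element of `ℚ / ℤ` is a multiple of some `1 / n` -/
theorem exists_den (x : QZ) : ∃ n : ℕ, 0 < n ∧ ∃ z : ℤ, x = z • (((1 / n : ℚ)) : QZ) := by
  induction x using QuotientAddGroup.induction_on with
  | H q =>
    refine ⟨q.den, q.den_pos, q.num, ?_⟩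
    rw [← AddCircle.coe_zsmul]
    congr 1
    rw [zsmul_eq_mul, mul_one_div, Rat.num_div_den]

/-- every finite subset of `ℚ / ℤ` lies in a cyclic subgroup -/
theorem exists_gen (V : Finset QZ) : ∃ g : QZ, ∀ x ∈ V, x ∈ AddSubgroup.zmultiples g := by
  classical
  choose n hn z hz using exists_den
  refine ⟨(((1 / ((∏ x ∈ V, n x : ℕ) : ℚ) : ℚ)) : QZ), ?_⟩
  intro x hx
  obtain ⟨m, hm⟩ := Finset.dvd_prod_of_mem n hx
  have hpos : 0 < ∏ x ∈ V, n x := Finset.prod_pos fun y _ => hn y
  have hm0 : 0 < m := by
    rcases Nat.eq_zero_or_pos m with h | h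
    · rw [h, mul_zero] at hm; omega
    · exact h
  rw [AddSubgroup.mem_zmultiples_iff]
  refine ⟨z x * m, ?_⟩
  rw [mul_zsmul]
  have e : ((m : ℤ)) • ((((1 / ((∏ x ∈ V, n x : ℕ) : ℚ) : ℚ)) : QZ)) = (((1 / n x : ℚ)) : QZ) := by
    rw [← AddCircle.coe_zsmul]
    congr 1
    rw [zsmul_eq_mul, hm]
    have h1 : ((n x : ℕ) : ℚ) ≠ 0 := by exact_mod_cast (hn x).ne'
    have h2 : ((m : ℕ) : ℚ) ≠ 0 := by exact_mod_cast hm0.ne'
    push_cast
    field_simp
  rw [e]
  exact (hz x).symm

end Pool.Agent.R109.Chars
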