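import Pool.Agent.R373.SQ.Stmts

/-!
Proof of `Pool.Agent.R373.SQ.St_A`.
-/

set_option autoImplicit false

namespace R109.SQA

open MeasureTheory Finset

/-- monotone cell map of one coordinate -/
noncomputable def G1 (n : ℕ) (ν : Measure ℝ) (x : ℝ) : ℕ × ℕ :=
  (⌊(n:ℝ) * ν.real (Set.Iio x)⌋₊, ⌊(n:ℝ) * ν.real (Set.Iic x)⌋₊)

variable {n : ℕ} {ν : Measure ℝ} [IsProbabilityMeasure ν]

lemma G1_mono {x y : ℝ} (hxy : x ≤ y) :
    (G1 n ν x).1 ≤ (G1 n ν y).1 ∧ (G1 n ν x).2 ≤ (G1 n ν y).2 := by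
  constructor
  · apply Nat.floor_mono
    exact mul_le_mul_of_nonneg_left (measureReal_mono (Set.Iio_subset_Iio hxy)) (Nat.cast_nonneg n)
  · apply Nat.floor_mono
    exact mul_le_mul_of_nonneg_left (measureReal_mono (Set.Iic_subset_Iic.2 hxy)) (Nat.cast_nonneg n)

lemma G1_le (x : ℝ) : (G1 n ν x).1 ≤ n ∧ (G1 n ν x).2 ≤ n := by
  constructor
  · apply Nat.floor_le_of_le
    calc (n:ℝ) * ν.real (Set.Iio x) ≤ n * 1 := by
          apply mul_le_mul_of_nonneg_left measureReal_le_one (Nat.cast_nonneg n)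
      _ = n := mul_one _
  · apply Nat.floor_le_of_le
    calc (n:ℝ) * ν.real (Set.Iic x) ≤ n * 1 := by
          apply mul_le_mul_of_nonneg_left measureReal_le_one (Nat.cast_nonneg n)
      _ = n := mul_one _

lemma G1_measurable : Measurable (G1 n ν) := by
  apply Measurable.prodMk
  · apply Nat.measurable_floor.comp
    apply Measurable.const_mul
    apply Monotone.measurable
    intro x y hxy
    exact measureReal_mono (Set.Iio_subset_Iio hxy)
  · apply Nat.measurable_floor.comp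
    apply Measurable.const_mul
    apply Monotone.measurable
    intro x y hxy
    exact measureReal_mono (Set.Iic_subset_Iic.2 hxy)

lemma fibre_small (hn : 0 < n) {x y : ℝ} (hxy : x < y) (h : G1 n ν x = G1 n ν y) :
    ν.real (Set.Icc x y) ≤ 1 / n := by
  have hn' : (0:ℝ) < n := by exact_mod_cast hn
  have h1 : (G1 n ν x).1 = (G1 n ν y).1 := by rw [h]
  have h2 : (G1 n ν x).2 = (G1 n ν y).2 := by rw [h]
  have h3 : (G1 n ν x).2 ≤ (G1 n ν y).1 := by
    apply Nat.floor_mono
    apply mul_le_mul_of_nonneg_left _ (Nat.cast_nonneg n)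
    refine measureReal_mono ?_
    intro z hz
    exact lt_of_le_of_lt hz hxy
  have h4 : (n:ℝ) * ν.real (Set.Iic y) < (G1 n ν y).2 + 1 := Nat.lt_floor_add_one _
  have h5 : ((G1 n ν x).1 : ℝ) ≤ n * ν.real (Set.Iio x) :=
    Nat.floor_le (mul_nonneg (Nat.cast_nonneg n) measureReal_nonneg)
  have h6 : (G1 n ν y).2 ≤ (G1 n ν x).1 := by rw [← h2, h1]; exact h3
  have h6' : ((G1 n ν y).2 : ℝ) ≤ (G1 n ν x).1 := by exact_mod_cast h6
  have h7 : ν.real (Set.Icc x y) = ν.real (Set.Iic y) - ν.real (Set.Iio x) := by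
    have e : Set.Icc x y = Set.Iic y \ Set.Iio x := by
      ext z; simp only [Set.mem_Icc, Set.mem_sdiff, Set.mem_Iic, Set.mem_Iio, not_lt]; tauto
    rw [e, measureReal_sdiff _ measurableSet_Iio]
    intro z hz
    exact (lt_trans hz hxy).le
  rw [h7, le_div_iff₀ hn']
  nlinarith

lemma small_set {E : Set ℝ} {ε : ENNReal} (hE : ∀ x ∈ E, ∀ y ∈ E, x ≤ y → ν (Set.Icc x y) ≤ ε) :
    ν E ≤ ε := by
  set F : Set ℝ := {z | ∃ x ∈ E, ∃ y ∈ E, x ≤ z ∧ z ≤ y} with hF
  have hEF : E ⊆ F := fun z hz => ⟨z, hz, z, hz, le_rfl, le_rfl⟩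
  have hoc : F.OrdConnected := by
    constructor
    rintro a ⟨x, hx, _, _, hxa, _⟩ b ⟨_, _, y, hy, _, hby⟩ z hz
    exact ⟨x, hx, y, hy, hxa.trans hz.1, hz.2.trans hby⟩
  refine (measure_mono hEF).trans ?_
  rw [hoc.measurableSet.measure_eq_iSup_isCompact_of_ne_top (measure_ne_top ν F)]
  refine iSup_le (fun C => iSup_le (fun hCF => iSup_le (fun hC => ?_)))
  rcases C.eq_empty_or_nonempty with h0 | h0
  · subst h0; simp
  · obtain ⟨x, hx, _, _, hxa, _⟩ := hCF (hC.sInf_mem h0)
    obtain ⟨_, _, y, hy, _, hby⟩ := hCF (hC.sSup_mem h0)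
    have hsub : C ⊆ Set.Icc x y := fun z hz =>
      ⟨hxa.trans (csInf_le hC.bddBelow hz), (le_csSup hC.bddAbove hz).trans hby⟩
    obtain ⟨z, hz⟩ := h0
    exact (measure_mono hsub).trans (hE x hx y hy ((hsub hz).1.trans (hsub hz).2))

/-- points of the fibres split by `L` -/
def splitSet (n : ℕ) (ν : Measure ℝ) (L : Set ℝ) : Set ℝ :=
  {x | ∃ y, G1 n ν y = G1 n ν x ∧ ¬ (y ∈ L ↔ x ∈ L)}

lemma split_same {L : Set ℝ} (hL : IsLowerSet L) {x x' : ℝ} (hx : x ∈ splitSet n ν L)
    (hx' : x' ∈ splitSet n ν L) (hlt : x < x') : G1 n ν x = G1 n ν x' := by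
  obtain ⟨y, hy, hyL⟩ := hx
  obtain ⟨y', hy', hyL'⟩ := hx'
  by_contra hne
  -- a point of the fibre of `x` outside `L`
  obtain ⟨a, ha, haL⟩ : ∃ a, G1 n ν a = G1 n ν x ∧ a ∉ L := by
    by_cases h : x ∈ L
    · exact ⟨y, hy, fun h2 => hyL ⟨fun _ => h, fun _ => h2⟩⟩
    · exact ⟨x, rfl, h⟩
  obtain ⟨b, hb, hbL⟩ : ∃ b, G1 n ν b = G1 n ν x' ∧ b ∈ L := by
    by_cases h : x' ∈ L
    · exact ⟨x', rfl, h⟩
    · refine ⟨y', hy', ?_⟩
      by_contra h2
      exact hyL' ⟨fun h3 => absurd h3 h2, fun h3 => absurd h3 h⟩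
  have hba : b < a := by
    by_contra hcon
    push Not at hcon
    exact haL (hL hcon hbL)
  apply hne
  have m1 := G1_mono (n := n) (ν := ν) hlt.le
  have m2 := G1_mono (n := n) (ν := ν) hba.le
  rw [ha, hb] at m2
  exact Prod.ext (le_antisymm m1.1 m2.1) (le_antisymm m1.2 m2.2)

lemma split_small (hn : 0 < n) {L : Set ℝ} (hL : IsLowerSet L) :
    ν (splitSet n ν L) ≤ ENNReal.ofReal (1 / n) := by
  apply small_set
  intro x hx y hy hxy
  rw [← ofReal_measureReal]
  apply ENNReal.ofReal_le_ofReal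
  rcases eq_or_lt_of_le hxy with h | h
  · subst h
    obtain ⟨z, hz, hzL⟩ := hx
    have hne : z ≠ x := by rintro rfl; exact hzL Iff.rfl
    rcases lt_or_gt_of_ne hne with h | h
    · refine le_trans (measureReal_mono ?_) (fibre_small hn h hz)
      intro t ht; exact ⟨h.le.trans ht.1, ht.2⟩
    · refine le_trans (measureReal_mono ?_) (fibre_small hn h hz.symm)
      intro t ht; exact ⟨ht.1, ht.2.trans h.le⟩
  · exact fibre_small hn h (split_same hL hx hy h)

lemma lower_measurable {L : Set ℝ} (hL : IsLowerSet L) : MeasurableSet L :=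
  hL.ordConnected.measurableSet

open Pool.Agent.R373.SQ in
theorem A_ok : St_A := by
  classical
  intro d
  refine ⟨(3 + d) * (2 * d) + 2, ?_⟩
  intro μ hμ hcube K hK
  set n : ℕ := 2 ^ (K + 1 + d) with hn
  have hnpos : 0 < n := by positivity
  set m : ℕ := (K + 2 + d) * (2 * d) + K + 1 with hm
  let νs : Fin d → Measure ℝ := fun i => μ.map (fun z => z i)
  have hνs : ∀ i, IsProbabilityMeasure (νs i) := fun i =>
    Measure.isProbabilityMeasure_map (measurable_pi_apply i).aemeasurable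
  -- cells
  let C := Fin d → Fin (n + 1) × Fin (n + 1)
  let Z : (Fin d → ℝ) → C := fun z i =>
    (⟨(G1 n (νs i) (z i)).1, Nat.lt_succ_of_le (G1_le (z i)).1⟩,
      ⟨(G1 n (νs i) (z i)).2, Nat.lt_succ_of_le (G1_le (z i)).2⟩)
  have hZeq : ∀ z z' : Fin d → ℝ, Z z = Z z' → ∀ i, G1 n (νs i) (z i) = G1 n (νs i) (z' i) := by
    intro z z' h i
    have h1 := congrFun h i
    simp only [Z, Prod.mk.injEq, Fin.mk.injEq] at h1
    exact Prod.ext h1.1 h1.2
  have hZm : Measurable Z := by
    apply measurable_pi_lambda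
    intro i
    have hG : Measurable (fun z : Fin d → ℝ => G1 n (νs i) (z i)) :=
      G1_measurable.comp (measurable_pi_apply i)
    apply Measurable.prodMk
    · apply measurable_to_countable'
      intro a
      have : (fun z : Fin d → ℝ => (⟨(G1 n (νs i) (z i)).1,
          Nat.lt_succ_of_le (G1_le (z i)).1⟩ : Fin (n + 1))) ⁻¹' {a}
          = (fun z : Fin d → ℝ => G1 n (νs i) (z i)) ⁻¹' {q | q.1 = (a : ℕ)} := by
        ext z; simp [Fin.ext_iff]
      rw [this]
      exact hG (MeasurableSet.of_discrete)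
    · apply measurable_to_countable'
      intro a
      have : (fun z : Fin d → ℝ => (⟨(G1 n (νs i) (z i)).2,
          Nat.lt_succ_of_le (G1_le (z i)).2⟩ : Fin (n + 1))) ⁻¹' {a}
          = (fun z : Fin d → ℝ => G1 n (νs i) (z i)) ⁻¹' {q | q.2 = (a : ℕ)} := by
        ext z; simp [Fin.ext_iff]
      rw [this]
      exact hG (MeasurableSet.of_discrete)
  let cube : Set (Fin d → ℝ) := Set.Icc (0 : Fin d → ℝ) 1
  have h0cube : (0 : Fin d → ℝ) ∈ cube := ⟨le_rfl, fun i => zero_le_one⟩
  have hrep : ∀ c : C, ∃ q : Fin d → ℝ, q ∈ cube ∧ ((∃ z ∈ cube, Z z = c) → Z q = c) := by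
    intro c
    by_cases h : ∃ z ∈ cube, Z z = c
    · obtain ⟨z, hz, hzc⟩ := h
      exact ⟨z, hz, fun _ => hzc⟩
    · exact ⟨0, h0cube, fun h2 => absurd h2 h⟩
  choose rep hrepc hrepZ using hrep
  let w : C → ℝ := fun c => μ.real (Z ⁻¹' {c})
  have hw0 : ∀ c, 0 ≤ w c := fun c => measureReal_nonneg
  have hwsum : ∀ T : Finset C, ∑ c ∈ T, w c = μ.real (Z ⁻¹' T) := by
    intro T
    exact sum_measureReal_preimage_singleton T (fun c _ => hZm (measurableSet_singleton c))
  have hwone : ∑ c, w c = 1 := by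
    rw [hwsum]; simp
  let nc : C → ℕ := fun c => ⌊(2:ℝ) ^ m * w c⌋₊
  have hnc1 : ∀ c, (nc c : ℝ) ≤ 2 ^ m * w c := fun c =>
    Nat.floor_le (mul_nonneg (by positivity) (hw0 c))
  have hnc2 : ∀ c, (2:ℝ) ^ m * w c < nc c + 1 := fun c => Nat.lt_floor_add_one _
  have hncsum : ∑ c, nc c ≤ 2 ^ m := by
    have : ((∑ c, nc c : ℕ) : ℝ) ≤ 2 ^ m := by
      push_cast
      calc ∑ c, (nc c : ℝ) ≤ ∑ c, 2 ^ m * w c := Finset.sum_le_sum (fun c _ => hnc1 c)
        _ = 2 ^ m := by rw [← Finset.mul_sum, hwone, mul_one]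
    exact_mod_cast this
  set rest : ℕ := 2 ^ m - ∑ c, nc c with hrest
  have hrestle : (rest : ℝ) ≤ Fintype.card C := by
    have h1 : ((2:ℝ) ^ m) = ∑ c, 2 ^ m * w c := by rw [← Finset.mul_sum, hwone, mul_one]
    have h2 : ∑ c, (2:ℝ) ^ m * w c ≤ ∑ c, ((nc c : ℝ) + 1) :=
      Finset.sum_le_sum (fun c _ => (hnc2 c).le)
    rw [Finset.sum_add_distrib] at h2
    simp only [Finset.sum_const, Finset.card_univ, nsmul_eq_mul, mul_one] at h2
    have h3 : (rest : ℝ) = 2 ^ m - ∑ c, (nc c : ℝ) := by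
      rw [hrest, Nat.cast_sub hncsum]; push_cast; ring
    rw [h3]; linarith
  refine ⟨m, (Σ c : C, Fin (nc c)) ⊕ Fin rest, inferInstance,
    Sum.elim (fun x => rep x.1) (fun _ => 0), ?_, ?_, ?_, ?_, ?_⟩
  · rw [hm]; omega
  · rw [hm]
    have h1 : K + 2 + d ≤ (3 + d) * K := by nlinarith
    calc (K + 2 + d) * (2 * d) + K + 1 ≤ (3 + d) * K * (2 * d) + K + 1 := by gcongr
      _ ≤ ((3 + d) * (2 * d) + 2) * K := by nlinarith
  · rw [Fintype.card_sum, Fintype.card_sigma]
    simp only [Fintype.card_fin]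
    omega
  · rintro (x | x)
    · exact hrepc x.1
    · exact h0cube
  · intro L hL
    set A : Set (Fin d → ℝ) := {z | ∀ i, z i ∈ L i} with hA
    -- the counting measure
    have hcount : (((univ.filter (fun q : (Σ c : C, Fin (nc c)) ⊕ Fin rest =>
        ∀ i, (Sum.elim (fun x => rep x.1) (fun _ => (0 : Fin d → ℝ)) q) i ∈ L i)).card : ℕ) : ℝ)
        = ∑ c ∈ univ.filter (fun c => rep c ∈ A), (nc c : ℝ)
          + (if (0 : Fin d → ℝ) ∈ A then (rest : ℝ) else 0) := by
      rw [Finset.card_filter, Fintype.sum_sum_type]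
      push_cast
      congr 1
      · rw [Fintype.sum_sigma, Finset.sum_filter]
        apply Finset.sum_congr rfl
        intro c _
        by_cases h : rep c ∈ A
        · rw [if_pos h]
          refine (Finset.sum_congr rfl (g := fun _ => (1:ℝ))
            (fun x _ => if_pos (fun i => h i))).trans ?_
          simp
        · rw [if_neg h]
          refine (Finset.sum_congr rfl (g := fun _ => (0:ℝ)) (fun x _ => if_neg
            (fun h2 => h (fun i => h2 i)))).trans ?_
          simp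
      · by_cases h : (0 : Fin d → ℝ) ∈ A
        · rw [if_pos h]
          refine (Finset.sum_congr rfl (g := fun _ => (1:ℝ))
            (fun x _ => if_pos (fun i => h i))).trans ?_
          simp
        · rw [if_neg h]
          refine (Finset.sum_congr rfl (g := fun _ => (0:ℝ)) (fun x _ => if_neg
            (fun h2 => h (fun i => h2 i)))).trans ?_
          simp
    rw [hcount]
    set T : Finset C := univ.filter (fun c => rep c ∈ A) with hT
    -- comparison of μ A and the mass of T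
    have hAm : MeasurableSet A := by
      have : A = ⋂ i, (fun z : Fin d → ℝ => z i) ⁻¹' (L i) := by
        ext z; simp [hA]
      rw [this]
      exact MeasurableSet.iInter (fun i => (measurable_pi_apply i) (lower_measurable (hL i)))
    set B : Set (Fin d → ℝ) := cubeᶜ ∪ ⋃ i, (fun z : Fin d → ℝ => z i) ⁻¹'
      (splitSet n (νs i) (L i)) with hB
    have hkey : ∀ z, z ∉ B → (z ∈ A ↔ Z z ∈ T) := by
      intro z hz
      simp only [hB, Set.mem_union, Set.mem_compl_iff, Set.mem_iUnion, Set.mem_preimage, not_or,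
        not_not, not_exists] at hz
      obtain ⟨hzc, hzs⟩ := hz
      have h1 := hrepZ (Z z) ⟨z, hzc, rfl⟩
      have h2 := hZeq _ _ h1
      have h3 : ∀ i, (rep (Z z) i ∈ L i ↔ z i ∈ L i) := by
        intro i
        by_contra hcon
        exact hzs i ⟨rep (Z z) i, h2 i, hcon⟩
      simp only [hT, Finset.mem_filter, Finset.mem_univ, true_and, hA, Set.mem_ofPred_eq]
      constructor
      · intro h i; exact (h3 i).2 (h i)
      · intro h i; exact (h3 i).1 (h i)
    have hBsmall : μ B ≤ ENNReal.ofReal (d / n) := by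
      calc μ B ≤ μ cubeᶜ + μ (⋃ i, (fun z : Fin d → ℝ => z i) ⁻¹'
            (splitSet n (νs i) (L i))) := measure_union_le _ _
        _ = μ (⋃ i, (fun z : Fin d → ℝ => z i) ⁻¹' (splitSet n (νs i) (L i))) := by
            rw [hcube, zero_add]
        _ ≤ ∑ i, μ ((fun z : Fin d → ℝ => z i) ⁻¹' (splitSet n (νs i) (L i))) :=
            measure_iUnion_fintype_le _ _
        _ ≤ ∑ i : Fin d, ENNReal.ofReal (1 / n) := by
            apply Finset.sum_le_sum
            intro i _
            have h1 := split_small (ν := νs i) hnpos (hL i)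
            refine le_trans ?_ h1
            exact Measure.le_map_apply (measurable_pi_apply i).aemeasurable _
        _ = ENNReal.ofReal (d / n) := by
            rw [Finset.sum_const, Finset.card_univ, Fintype.card_fin, nsmul_eq_mul,
              ← ENNReal.ofReal_natCast, ← ENNReal.ofReal_mul (by positivity)]
            congr 1; ring
    have hBreal : μ.real B ≤ d / n := by
      rw [measureReal_def]
      exact ENNReal.toReal_le_of_le_ofReal (by positivity) hBsmall
    have hdiff : |μ.real (Z ⁻¹' T) - μ.real A| ≤ d / n := by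
      rw [abs_le]
      have h1 : μ.real A ≤ μ.real (Z ⁻¹' T) + μ.real B := by
        refine le_trans (measureReal_mono ?_) (measureReal_union_le _ _)
        intro z hz
        by_cases hzB : z ∈ B
        · right; exact hzB
        · left; exact (hkey z hzB).1 hz
      have h2 : μ.real (Z ⁻¹' T) ≤ μ.real A + μ.real B := by
        refine le_trans (measureReal_mono ?_) (measureReal_union_le _ _)
        intro z hz
        by_cases hzB : z ∈ B
        · right; exact hzB
        · left; exact (hkey z hzB).2 hz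
      constructor <;> linarith
    -- the rounding error
    have h2m : (0:ℝ) < 2 ^ m := by positivity
    have hround : |(∑ c ∈ T, (nc c : ℝ) + (if (0 : Fin d → ℝ) ∈ A then (rest : ℝ) else 0)) / 2 ^ m
        - μ.real (Z ⁻¹' T)| ≤ Fintype.card C / 2 ^ m := by
      rw [← hwsum T]
      have e : (∑ c ∈ T, (nc c : ℝ) + (if (0 : Fin d → ℝ) ∈ A then (rest : ℝ) else 0)) / 2 ^ m
          - ∑ c ∈ T, w c = ((if (0 : Fin d → ℝ) ∈ A then (rest : ℝ) else 0)
            - ∑ c ∈ T, (2 ^ m * w c - nc c)) / 2 ^ m := by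
        rw [Finset.sum_sub_distrib, ← Finset.mul_sum]
        field_simp
        ring
      rw [e, abs_div, abs_of_pos h2m]
      gcongr
      have h3 : 0 ≤ ∑ c ∈ T, (2 ^ m * w c - nc c) :=
        Finset.sum_nonneg (fun c _ => by linarith [hnc1 c])
      have h4 : ∑ c ∈ T, (2 ^ m * w c - nc c) ≤ Fintype.card C := by
        calc ∑ c ∈ T, (2 ^ m * w c - nc c) ≤ ∑ c ∈ T, (1:ℝ) :=
              Finset.sum_le_sum (fun c _ => by linarith [hnc2 c])
          _ = T.card := by simp
          _ ≤ Fintype.card C := by exact_mod_cast Finset.card_le_univ T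
      have h5 : (0:ℝ) ≤ (if (0 : Fin d → ℝ) ∈ A then (rest : ℝ) else 0) := by
        split_ifs
        · positivity
        · exact le_refl _
      have h6 : (if (0 : Fin d → ℝ) ∈ A then (rest : ℝ) else 0) ≤ Fintype.card C := by
        split_ifs
        · exact hrestle
        · positivity
      rw [abs_le]
      constructor <;> linarith
    have hcardC : (Fintype.card C : ℝ) / 2 ^ m ≤ 1 / 2 ^ (K + 1) := by
      have h7 : Fintype.card C = ((n + 1) * (n + 1)) ^ d := by
        simp [C]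
      have h8 : (n + 1) * (n + 1) ≤ 2 ^ ((K + 2 + d) * 2) := by
        have : n + 1 ≤ 2 ^ (K + 2 + d) := by
          have e : 2 ^ (K + 2 + d) = 2 * n := by rw [hn]; ring
          rw [e]; omega
        calc (n + 1) * (n + 1) ≤ 2 ^ (K + 2 + d) * 2 ^ (K + 2 + d) := Nat.mul_le_mul this this
          _ = 2 ^ ((K + 2 + d) * 2) := by rw [← pow_add]; congr 1; ring
      have h9 : Fintype.card C * 2 ^ (K + 1) ≤ 2 ^ m := by
        rw [h7]
        calc ((n + 1) * (n + 1)) ^ d * 2 ^ (K + 1)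
            ≤ (2 ^ ((K + 2 + d) * 2)) ^ d * 2 ^ (K + 1) := by gcongr
          _ = 2 ^ m := by rw [← pow_mul, ← pow_add, hm]; congr 1; ring
      rw [div_le_div_iff₀ h2m (by positivity), one_mul]
      exact_mod_cast h9
    have hdn : (d:ℝ) / n ≤ 1 / 2 ^ (K + 1) := by
      rw [div_le_div_iff₀ (by exact_mod_cast hnpos) (by positivity), one_mul]
      have h10 : d * 2 ^ (K + 1) ≤ n := by
        rw [hn, pow_add _ (K + 1) d, mul_comm]
        gcongr
        exact Nat.lt_two_pow_self.le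
      exact_mod_cast h10
    have hfin : (μ A).toReal = μ.real A := rfl
    rw [hfin]
    calc |(∑ c ∈ T, (nc c : ℝ) + (if (0 : Fin d → ℝ) ∈ A then (rest : ℝ) else 0)) / 2 ^ m
          - μ.real A|
        ≤ |(∑ c ∈ T, (nc c : ℝ) + (if (0 : Fin d → ℝ) ∈ A then (rest : ℝ) else 0)) / 2 ^ m
          - μ.real (Z ⁻¹' T)| + |μ.real (Z ⁻¹' T) - μ.real A| := abs_sub_le _ _ _
      _ ≤ Fintype.card C / 2 ^ m + d / n := add_le_add hround hdiff
      _ ≤ 1 / 2 ^ (K + 1) + 1 / 2 ^ (K + 1) := add_le_add hcardC hdn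
      _ = 1 / 2 ^ K := by rw [pow_succ]; field_simp; norm_num

end R109.SQA
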